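import Pool.Agent.Helper68.ES.St2

/-!
# Project ES (MP_cb927e_an): module TNU (the numbers)
-/

set_option autoImplicit false

open MeasureTheory Set Filter Topology
open scoped ENNReal RealInnerProductSpace

namespace Pool.Agent.Helper1.ES

open Pool.Agent.Helper68.ES Pool.Agent.Helper68.EP Pool.Agent.Helper20.RG
open Pool.Agent.Helper20.RL (RQ Rich BM Fml Hit)
open Pool.Agent.Helper68.LM (Pl BB Bd Av HL ft fm DQ)

private theorem tnu_main (p w u R Y β b n ν L x ρ γ σ q i κ δ T C₁ : ℝ)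
    (hw3 : 3 * w = p + 1) (hwp : w * p = 1) (hw1 : 2 / 3 < w) (hw2 : w < 4 / 5)
    (hb : 0 ≤ b) (hn : 0 ≤ n) (hβ : β = b - n) (hβa : |β| = b + n) (hT : T = |R| + |Y| + |β|)
    (hν0 : 0 ≤ ν) (hνn : ν ≤ n) (hnν : n ≤ ν + δ * T + κ) (hx : 0 ≤ x)
    (h2 : R + p * Y + p * β ≤ C₁ - ν)
    (h3 : L ≤ γ + R - β) (h4 : -T ≤ L) (h6 : ρ ≤ R - β - L + C₁)
    (hq3 : (1 - w) * q ≤ (p - 2 + w) * u + (1 - w) * R) (hi : i ≤ w * u + Y)
    (hγ : 0 ≤ γ) (hσ6 : σ ≤ 6) (hκ : 0 ≤ κ) (hδ : 0 < δ) (hδ2 : δ ≤ 1 / 500)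
    (hC : 1 ≤ C₁)
    (hI : L - 1 / 500 * ρ + β - σ + p * u + ρ - q ≤ γ + 2 + (u + w * (γ - ν + 2 * ρ + 12 - q)) +
      (-(p * u) + 2 * x + 2 * (1 / 500) * ρ - L + 2 * σ + 2 * i)) :
    L ≤ ν - 1 / 36 * T + 3 * x + 12 * (γ + C₁ + κ + 10) := by
  have hT0 : 0 ≤ T := by rw [hT]; positivity
  have hR1 := le_abs_self R
  have hR2 := neg_abs_le R
  have hR0 := abs_nonneg R
  have hY0 := abs_nonneg Y
  have hw0 : 0 ≤ w := by linarith
  have hδT : 0 ≤ δ * T := mul_nonneg hδ.le hT0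
  have hδT2 : δ * T ≤ 1 / 500 * T := mul_le_mul_of_nonneg_right hδ2 hT0
  have hwν : 0 ≤ w * ν := mul_nonneg hw0 hν0
  have hwγ : w * γ ≤ 1 * γ := mul_le_mul_of_nonneg_right (by linarith) hγ
  have hRβL : R - β - L ≤ 2 * T := by rw [hT] at h4 ⊢; linarith [neg_le_abs β]
  have hwC : (2 * w - 1) * C₁ ≤ 1 * C₁ := mul_le_mul_of_nonneg_right (by linarith) (by linarith)
  have hwC' : w * C₁ ≤ 1 * C₁ := mul_le_mul_of_nonneg_right (by linarith) (by linarith)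
  have hρ1 := mul_le_mul_of_nonneg_left h6 (by linarith : 0 ≤ 2 * w - 1 + 3 / 500)
  have hρ2 : (2 * w - 1 + 3 / 500) * ρ ≤ (2 * w - 1) * (R - β - L) + C₁ + 6 / 500 * T + 3 / 500 * C₁ := by
    linarith
  have hpu : p * u = 3 * (w * u) - u := by
    have : p = 3 * w - 1 := by linarith
    rw [this]; ring
  have e2 : 2 * L ≤ -β - w * ν + (1 - w) * R + 2 * Y + 2 * x + (2 * w - 1 + 3 / 500) * ρ + (2 * γ + 32) := by
    linarith
  have ha : (1 + 2 * w) * L ≤ w * R - 2 * (w * β) + 2 * Y - w * ν + 2 * x + 6 / 500 * T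
      + (2 * γ + 32 + 2 * C₁) := by linarith
  have hc : w * R + Y + β ≤ C₁ - w * ν := by
    have h := mul_le_mul_of_nonneg_left h2 hw0
    have e : w * (R + p * Y + p * β) = w * R + (w * p) * Y + (w * p) * β := by ring
    rw [e, hwp] at h
    linarith
  obtain ⟨h, hh⟩ : ∃ h, h = ν - L := ⟨_, rfl⟩
  have hL : L = ν - h := by linarith
  obtain ⟨E, hE⟩ : ∃ E, E = 2 * x + 6 / 500 * T + 6 * (δ * T) + (3 * γ + 4 * C₁ + 6 * κ + 32) := ⟨_, rfl⟩
  have hE0 : 0 ≤ E := by rw [hE]; linarith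
  have hd : w * R + (2 + 2 * w) * b + (3 * w - 1) * n ≤ (1 + 2 * w) * h + E - (δ * T + κ + γ) := by
    have h5 : (1 + 5 * w) * n ≤ (1 + 5 * w) * (ν + δ * T + κ) :=
      mul_le_mul_of_nonneg_left hnν (by linarith)
    have h6 : (1 + 5 * w) * (δ * T + κ) ≤ 5 * (δ * T + κ) :=
      mul_le_mul_of_nonneg_right (by linarith) (by linarith)
    rw [hβ] at ha hc
    rw [hL] at ha
    rw [hE]
    linarith
  have hb' : -(δ * T + κ + γ) - h + b ≤ R := by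
    rw [hL, hβ] at h3
    linarith
  have he : (2 + 3 * w) * b + (3 * w - 1) * n ≤ (1 + 3 * w) * h + E := by
    have h5 := mul_le_mul_of_nonneg_left hb' hw0
    have h6 : w * (δ * T + κ + γ) ≤ 1 * (δ * T + κ + γ) :=
      mul_le_mul_of_nonneg_right (by linarith) (by linarith)
    linarith
  obtain ⟨H, hH⟩ : ∃ H, H = h + E := ⟨_, rfl⟩
  have hwb : 0 ≤ w * b := mul_nonneg hw0 hb
  have hwn : 0 ≤ (3 * w - 1) * n := mul_nonneg (by linarith) hn
  have hwE : 0 ≤ w * E := mul_nonneg hw0 hE0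
  have hH0 : 0 ≤ H := by
    have h6 : 0 ≤ (1 + 3 * w) * H := by
      rw [hH]
      linarith
    exact (mul_nonneg_iff_of_pos_left (by linarith)).1 h6
  have hwH : w * H ≤ 4 / 5 * H := mul_le_mul_of_nonneg_right hw2.le hH0
  have hwH0 : 0 ≤ w * H := mul_nonneg hw0 hH0
  have hwn1 : n ≤ (3 * w - 1) * n := by
    have := mul_le_mul_of_nonneg_right (by linarith : (1 : ℝ) ≤ 3 * w - 1) hn
    linarith
  have hbn : 2 * b + n ≤ 4 * H := by
    rw [hH] at hwH ⊢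
    linarith
  have hRl : -H ≤ R := by rw [hH, hE]; linarith
  have hwR : w * R ≤ 3 * H := by
    rw [hH] at hwH ⊢
    linarith
  have hRu : R ≤ 9 / 2 * H := by
    by_contra hc2
    push Not at hc2
    have h8 : 2 / 3 * R ≤ w * R := mul_le_mul_of_nonneg_right hw1.le (by linarith)
    linarith
  have hRa : |R| ≤ 9 / 2 * H := abs_le.2 ⟨by linarith, hRu⟩
  have hLl : -H ≤ L := by rw [hL, hH]; linarith
  have hYl : -(7 * H) - E ≤ Y := by
    have h5 := mul_le_mul_of_nonneg_left hLl (by linarith : 0 ≤ 1 + 2 * w)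
    have h6 : -(8 * H) ≤ 2 * (w * β) := by
      have h9 : w * n ≤ 1 * n := mul_le_mul_of_nonneg_right (by linarith) hn
      have h10 : w * β = w * b - w * n := by rw [hβ]; ring
      rw [h10]
      linarith
    have h7 : 2 * x + 6 / 500 * T + (2 * γ + 32 + 2 * C₁) ≤ E := by rw [hE]; linarith
    linarith
  have hYu : Y ≤ 7 * H + E := by
    have h5 := mul_le_mul_of_nonneg_left hRl hw0
    have h7 : C₁ ≤ E := by rw [hE]; linarith
    linarith
  have hYa : |Y| ≤ 7 * H + E := abs_le.2 ⟨by linarith, hYu⟩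
  have hTf : T ≤ 16 * H + E := by
    rw [hT, hβa]
    linarith
  rw [hL]
  rw [hH, hE] at hTf
  linarith

/-- the linear inequalities of TNU -/
private theorem tnu_core (p w u R Y β b n ν L x ρ γ σ q i κ δ T C₁ A B : ℝ)
    (hwp : w * p = 1) (hw3 : 3 * w = p + 1) (hw1 : 2 / 3 < w) (hw2 : w < 4 / 5)
    (hb : 0 ≤ b) (hn : 0 ≤ n) (hβ : β = b - n) (hβa : |β| = b + n) (hT : T = |R| + |Y| + |β|)
    (hν0 : 0 ≤ ν) (hνn : ν ≤ n) (hnν : n ≤ ν + δ * T + κ) (hx : 0 ≤ x) (hu : 0 ≤ u)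
    (hTu : T ≤ 1 / 100 * u) (hρ : 0 ≤ ρ) (h2 : R + p * Y + p * β ≤ C₁ - ν)
    (h3 : L ≤ γ + R - β) (h4 : -T ≤ L) (h6 : ρ ≤ R - β - L + C₁)
    (hq2 : q ≤ (p - 1) * u + R) (hi : i ≤ w * u + Y)
    (hγ : 0 ≤ γ) (hσ6 : σ ≤ 6) (hκ : 0 ≤ κ) (hδ : 0 < δ) (hδ2 : δ ≤ 1 / 500)
    (hC : 1 ≤ C₁)
    (hA : A = u + w * (γ - ν + 2 * ρ + 12 - q))
    (hB : B = -(p * u) + 2 * x + 2 * (1 / 500) * ρ - L + 2 * σ + 2 * i)
    (hI : L - 1 / 500 * ρ + β - σ + p * u + ρ - q ≤ γ + 2 + max A 0 + max B 0) :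
    L ≤ ν - 1 / 36 * T + 3 * x + 12 * (γ + C₁ + κ + 10) := by
  have hT0 : 0 ≤ T := by rw [hT]; positivity
  have hR1 := le_abs_self R
  have hR2 := neg_abs_le R
  have hY1 := le_abs_self Y
  have hR0 := abs_nonneg R
  have hY0 := abs_nonneg Y
  have hβ1 : -β ≤ |β| := neg_le_abs β
  have hw0 : 0 ≤ w := by linarith
  have hpu : p * u = 3 * (w * u) - u := by
    have : p = 3 * w - 1 := by linarith
    rw [this]; ring
  have hq3 : (1 - w) * q ≤ (p - 2 + w) * u + (1 - w) * R := by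
    have h := mul_le_mul_of_nonneg_left hq2 (by linarith : 0 ≤ 1 - w)
    have e : (1 - w) * ((p - 1) * u + R) = (p - 1 - w * p + w) * u + (1 - w) * R := by ring
    rw [e, hwp] at h
    linarith
  have hwu : 2 / 3 * u ≤ w * u := mul_le_mul_of_nonneg_right hw1.le hu
  have hwu2 : w * u ≤ 4 / 5 * u := mul_le_mul_of_nonneg_right hw2.le hu
  have hwν : 0 ≤ w * ν := mul_nonneg hw0 hν0
  have hwγ : w * γ ≤ 1 * γ := mul_le_mul_of_nonneg_right (by linarith) hγ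
  have hwρ : w * ρ ≤ 4 / 5 * ρ := mul_le_mul_of_nonneg_right hw2.le hρ
  have hwR : (1 - w) * R ≤ |R| := by
    have h1 : (1 - w) * R ≤ (1 - w) * |R| := mul_le_mul_of_nonneg_left hR1 (by linarith)
    have h2 : 0 ≤ w * |R| := mul_nonneg hw0 hR0
    linarith
  have hRβL : R - β - L ≤ 2 * T := by rw [hT] at h4 ⊢; linarith
  -- the bad cases
  have bad : T ≤ x + (2 * γ + 20 + C₁) → L ≤ ν - 1 / 36 * T + 3 * x + 12 * (γ + C₁ + κ + 10) := by
    intro h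
    have : R - β ≤ T := by rw [hT]; linarith
    linarith
  rcases max_cases A 0 with ⟨hA1, hA2⟩ | ⟨hA1, hA2⟩ <;> rcases max_cases B 0 with ⟨hB1, hB2⟩ | ⟨hB1, hB2⟩ <;>
    rw [hA1, hB1] at hI
  · rw [hA, hB] at hI
    exact tnu_main p w u R Y β b n ν L x ρ γ σ q i κ δ T C₁ hw3 hwp hw1 hw2 hb hn hβ hβa hT hν0 hνn hnν hx
      h2 h3 h4 h6 hq3 hi hγ hσ6 hκ hδ hδ2 hC hI
  · -- only A
    apply bad
    rw [hA] at hI
    have h6 : |R| + |β| ≤ T := by rw [hT]; linarith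
    have h5 : (1 - w) * u ≤ 2 * γ + 20 + C₁ + 4 * T := by
      linarith
    linarith
  · -- only B
    apply bad
    rw [hB] at hI
    have h6 : |R| + |β| + 2 * |Y| ≤ 2 * T := by
      rw [hT]
      linarith [abs_nonneg β]
    have h5 : w * u ≤ γ + 20 + 2 * x + 4 * T := by
      linarith
    linarith
  · -- nothing
    apply bad
    have h6 : |R| + |β| ≤ T := by rw [hT]; linarith
    linarith

private lemma rlog {y : ℝ} (hy : 0 < y) : (2 : ℝ) ^ (Real.logb 2 y) = y :=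
  Real.rpow_logb two_pos (by norm_num) hy

private lemma one_add_le (a A : ℝ) (h : a ≤ (2 : ℝ) ^ A) : 1 + a ≤ (2 : ℝ) ^ (1 + max A 0) := by
  have h1 : (1 : ℝ) ≤ (2 : ℝ) ^ (max A 0) := Real.one_le_rpow (by norm_num) (le_max_right _ _)
  have h2 : (2 : ℝ) ^ A ≤ (2 : ℝ) ^ (max A 0) :=
    Real.rpow_le_rpow_of_exponent_le (by norm_num) (le_max_left _ _)
  rw [Real.rpow_add two_pos, Real.rpow_one]
  linarith

/-- module TNU -/
theorem hTNU : StTNU := by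
  intro p hp1 hp2 hp3
  refine ⟨1 / 500, 1 / 500, 1 / 36, 1 / 100, by norm_num, by norm_num, by norm_num, by norm_num,
    by norm_num, by norm_num, ?_⟩
  intro C₁ c δ hC₁ hc hc1 hδ hδ0
  have hp0 : p ≠ 0 := by linarith
  obtain ⟨w, hw⟩ : ∃ w, w = 1 / p := ⟨_, rfl⟩
  have hwp : w * p = 1 := by rw [hw]; field_simp
  have hw3 : 3 * w = p + 1 := by
    rw [hw]
    field_simp
    linarith
  have hpl : 5 / 4 < p := by
    by_contra hcon
    push Not at hcon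
    nlinarith
  have hpu : p < 7 / 5 := by
    by_contra hcon
    push Not at hcon
    nlinarith
  have hw1 : 2 / 3 < w := by linarith
  have hw2 : w < 4 / 5 + 0 := by linarith
  rw [add_zero] at hw2
  obtain ⟨γ, hγ⟩ : ∃ γ, γ = Real.logb 2 C₁ := ⟨_, rfl⟩
  obtain ⟨κ, hκ⟩ : ∃ κ, κ = -Real.logb 2 c := ⟨_, rfl⟩
  obtain ⟨σ, hσ⟩ : ∃ σ, σ = Real.logb 2 36 := ⟨_, rfl⟩
  have hγ0 : 0 ≤ γ := by rw [hγ]; exact Real.logb_nonneg (by norm_num) hC₁
  have hκ0 : 0 ≤ κ := by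
    rw [hκ, neg_nonneg]
    exact Real.logb_nonpos (by norm_num) hc.le hc1
  have hσ6 : σ ≤ 6 := by
    rw [hσ, Real.logb_le_iff_le_rpow (by norm_num) (by norm_num)]
    norm_num
  have eγ : C₁ = (2 : ℝ) ^ γ := by rw [hγ, rlog (by linarith)]
  have eκ : c = (2 : ℝ) ^ (-κ) := by rw [hκ, neg_neg, rlog hc]
  have eσ : (36 : ℝ) = (2 : ℝ) ^ σ := by rw [hσ, rlog (by norm_num)]
  refine ⟨3 + (2 : ℝ) ^ (12 * (γ + C₁ + κ + 10)), ?_, ?_⟩
  · have : (0 : ℝ) < (2 : ℝ) ^ (12 * (γ + C₁ + κ + 10)) := Real.rpow_pos_of_pos two_pos _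
    linarith
  intro R Y β u q i ρ al lam Λ₁ hcfg hal hal2 hH2 hlam hlam2 hlam3 hΛ hρ hI
  obtain ⟨T, hT⟩ : ∃ T, T = sz R Y β := ⟨_, rfl⟩
  obtain ⟨L, hL⟩ : ∃ L, L = Real.logb 2 lam := ⟨_, rfl⟩
  obtain ⟨x, hx⟩ : ∃ x, x = Real.logb 2 Λ₁ := ⟨_, rfl⟩
  obtain ⟨N, hN⟩ : ∃ N, N = nn c δ R Y β := ⟨_, rfl⟩
  obtain ⟨ν, hν⟩ : ∃ ν, ν = Real.logb 2 N := ⟨_, rfl⟩
  have hN1 : 1 ≤ N := by rw [hN]; exact le_max_left _ _
  have eL : lam = (2 : ℝ) ^ L := by rw [hL, rlog hlam]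
  have ex : Λ₁ = (2 : ℝ) ^ x := by rw [hx, rlog (by linarith)]
  have eν : N = (2 : ℝ) ^ ν := by rw [hν, rlog (by linarith)]
  have hN2 : N = max 1 (c * (2 : ℝ) ^ (-(β : ℝ) - δ * T)) := by rw [hN, hT]; rfl
  have hT2 : T = |(R : ℝ)| + |(Y : ℝ)| + |(β : ℝ)| := by rw [hT]; rfl
  have hT0 : 0 ≤ T := by rw [hT2]; positivity
  have hδT : 0 ≤ δ * T := mul_nonneg hδ.le hT0
  rw [← hN] at hal2 hH2
  rw [← hν] at hH2
  rw [← hT] at hlam3
  rw [← hL] at hρ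
  rw [← hN, ← hT]
  have hx0 : 0 ≤ x := by rw [hx]; exact Real.logb_nonneg (by norm_num) hΛ
  have hν0 : 0 ≤ ν := by rw [hν]; exact Real.logb_nonneg (by norm_num) hN1
  -- the two parts of β
  have hb : (0 : ℝ) ≤ max (β : ℝ) 0 := le_max_right _ _
  have hn : (0 : ℝ) ≤ max (-(β : ℝ)) 0 := le_max_right _ _
  have hβ : (β : ℝ) = max (β : ℝ) 0 - max (-(β : ℝ)) 0 := by
    rcases le_total (β : ℝ) 0 with h | h
    · rw [max_eq_right h, max_eq_left (by linarith)]; ring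
    · rw [max_eq_left h, max_eq_right (by linarith)]; ring
  have hβa : |(β : ℝ)| = max (β : ℝ) 0 + max (-(β : ℝ)) 0 := by
    rcases le_total (β : ℝ) 0 with h | h
    · rw [max_eq_right h, max_eq_left (by linarith), abs_of_nonpos h]; ring
    · rw [max_eq_left h, max_eq_right (by linarith), abs_of_nonneg h]; ring
  have hνn : ν ≤ max (-(β : ℝ)) 0 := by
    rw [hν, Real.logb_le_iff_le_rpow (by norm_num) (by linarith), hN2]
    apply max_le
    · exact Real.one_le_rpow (by norm_num) hn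
    · calc c * (2 : ℝ) ^ (-(β : ℝ) - δ * T) ≤ 1 * (2 : ℝ) ^ (-(β : ℝ) - δ * T) :=
            mul_le_mul_of_nonneg_right hc1 (Real.rpow_pos_of_pos two_pos _).le
        _ ≤ (2 : ℝ) ^ (max (-(β : ℝ)) 0) := by
            rw [one_mul]
            apply Real.rpow_le_rpow_of_exponent_le (by norm_num)
            have := le_max_left (-(β : ℝ)) 0
            linarith
  have hnν : max (-(β : ℝ)) 0 ≤ ν + δ * T + κ := by
    apply max_le
    · have h1 : (2 : ℝ) ^ (-κ + (-(β : ℝ) - δ * T)) ≤ (2 : ℝ) ^ ν := by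
        rw [← eν, Real.rpow_add two_pos, ← eκ, hN2]
        exact le_max_right _ _
      rw [Real.rpow_le_rpow_left_iff (by norm_num)] at h1
      linarith
    · linarith
  have h3 : L ≤ γ + R - β := by
    have h1 : (2 : ℝ) ^ L ≤ (2 : ℝ) ^ (γ + (((R - β : ℤ)) : ℝ)) := by
      rw [← eL, Real.rpow_add two_pos, ← eγ, Real.rpow_intCast]
      exact hlam2
    rw [Real.rpow_le_rpow_left_iff (by norm_num)] at h1
    push_cast at h1
    linarith
  have h4 : -T ≤ L := by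
    rw [eL, Real.rpow_le_rpow_left_iff (by norm_num)] at hlam3
    exact hlam3
  have hq2 : (q : ℝ) ≤ (p - 1) * u + R := by
    have h1 : ((q : ℤ) : ℝ) = ((⌊(p - 1) * (u : ℝ)⌋ + R : ℤ) : ℝ) := by rw [hcfg.hq]
    push_cast at h1
    rw [h1]
    have := Int.floor_le ((p - 1) * (u : ℝ))
    linarith
  have hi : (i : ℝ) ≤ w * u + Y := by
    have h1 : ((i : ℤ) : ℝ) = ((⌊(u : ℝ) / p⌋ + Y : ℤ) : ℝ) := by rw [hcfg.hi]
    push_cast at h1
    rw [h1]
    have h2 := Int.floor_le ((u : ℝ) / p)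
    have h5 : (u : ℝ) / p = w * u := by rw [hw]; ring
    rw [h5] at h2 ⊢
    linarith
  have hTu : T ≤ 1 / 100 * u := by rw [hT]; exact hcfg.adm
  have eth : th i = (2 : ℝ) ^ (-(i : ℝ) - σ) := by
    unfold th
    rw [Real.rpow_sub two_pos, ← eσ, ← Real.rpow_intCast]
    push_cast
    rfl
  have emb : mb i β = (2 : ℝ) ^ ((i : ℝ) + (β : ℝ)) := by
    unfold mb
    rw [← Real.rpow_intCast]
    push_cast
    rfl
  have hfin : L ≤ ν - 1 / 36 * T + 3 * x + 12 * (γ + C₁ + κ + 10) := by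
    refine tnu_core p w u R Y β _ _ ν L x ρ γ σ q i κ δ T C₁ _ _ hwp hw3 hw1 hw2 hb hn hβ hβa hT2 hν0
      hνn hnν hx0 (Nat.cast_nonneg u) hTu (Nat.cast_nonneg ρ) hH2 h3 h4 hρ hq2 hi hγ0 hσ6 hκ0 hδ hδ0
      hC₁ rfl rfl ?_
    have hA : (2 : ℝ) ^ u * (al * (2 : ℝ) ^ (2 * ((ρ : ℤ) + 6) - q)) ^ (1 / p) ≤
        (2 : ℝ) ^ ((u : ℝ) + w * (γ - ν + 2 * ρ + 12 - q)) := by
      rw [Real.rpow_add two_pos, Real.rpow_natCast, mul_comm w, Real.rpow_mul (by norm_num), ← hw]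
      apply mul_le_mul_of_nonneg_left _ (by positivity)
      apply Real.rpow_le_rpow (by positivity) _ (by linarith)
      have h1 : γ - ν + 2 * ρ + 12 - q = (γ - ν) + (((2 * ((ρ : ℤ) + 6) - q : ℤ)) : ℝ) := by
        push_cast
        ring
      rw [h1, Real.rpow_add two_pos, Real.rpow_intCast, Real.rpow_sub two_pos, ← eγ, ← eν]
      exact mul_le_mul_of_nonneg_right hal2 (by positivity)
    have hB : (2 : ℝ) ^ (-(p * u)) * Λ₁ ^ 2 * (2 : ℝ) ^ (2 * (1 / 500 : ℝ) * ρ) / (lam * (th i) ^ 2) ≤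
        (2 : ℝ) ^ (-(p * u) + 2 * x + 2 * (1 / 500) * ρ - L + 2 * σ + 2 * i) := by
      apply le_of_eq
      have h1 : -(p * u) + 2 * x + 2 * (1 / 500) * ρ - L + 2 * σ + 2 * i
          = (-(p * u) + (x + x) + 2 * (1 / 500) * ρ) - (L + ((-(i : ℝ) - σ) + (-(i : ℝ) - σ))) := by ring
      rw [h1, Real.rpow_sub two_pos, Real.rpow_add two_pos, Real.rpow_add two_pos, Real.rpow_add two_pos,
        Real.rpow_add two_pos, Real.rpow_add two_pos, ← eL, ← ex, ← eth, sq, sq]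
    have hR := mul_le_mul (one_add_le _ _ hA) (one_add_le _ _ hB) (by positivity) (by positivity)
    have hR2 := mul_le_mul_of_nonneg_left hR (by linarith : 0 ≤ C₁)
    rw [← mul_assoc] at hR2
    have h5 := hI.trans hR2
    have h6 : lam * (2 : ℝ) ^ (-(1 / 500 * (ρ : ℝ))) * (mb i β * th i) * (2 : ℝ) ^ (p * u) * 2 ^ ρ / 2 ^ q
        = (2 : ℝ) ^ (L - 1 / 500 * ρ + β - σ + p * u + ρ - q) := by
      have h7 : L - 1 / 500 * ρ + β - σ + p * u + ρ - q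
          = (L + -(1 / 500 * ρ) + (((i : ℝ) + β) + (-(i : ℝ) - σ)) + p * u + ρ) - q := by ring
      rw [h7, Real.rpow_sub two_pos, Real.rpow_add two_pos, Real.rpow_add two_pos, Real.rpow_add two_pos,
        Real.rpow_add two_pos, Real.rpow_add two_pos, ← eL, ← eth, ← emb, Real.rpow_natCast, Real.rpow_natCast]
    rw [h6] at h5
    nth_rewrite 1 [eγ] at h5
    rw [← Real.rpow_add two_pos, ← Real.rpow_add two_pos, Real.rpow_le_rpow_left_iff (by norm_num)] at h5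
    linarith
  obtain ⟨K, hK0⟩ : ∃ K, K = 12 * (γ + C₁ + κ + 10) := ⟨_, rfl⟩
  rw [← hK0] at hfin ⊢
  have h8 : (2 : ℝ) ^ L ≤ (2 : ℝ) ^ (K + ν + -(1 / 36 * T) + x * 3) := by
    apply Real.rpow_le_rpow_of_exponent_le (by norm_num)
    linarith
  rw [Real.rpow_add two_pos, Real.rpow_add two_pos, Real.rpow_add two_pos, ← eν, ← eL,
    Real.rpow_mul (by norm_num), ← ex] at h8
  refine h8.trans ?_
  have hK : (0 : ℝ) < (2 : ℝ) ^ K := Real.rpow_pos_of_pos two_pos _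
  have hN0 : 0 ≤ N := by linarith
  apply mul_le_mul
  · apply mul_le_mul_of_nonneg_right _ (by positivity)
    apply mul_le_mul_of_nonneg_right _ hN0
    linarith
  · apply Real.rpow_le_rpow_of_exponent_le hΛ
    linarith
  · positivity
  · positivity

end Pool.Agent.Helper1.ES
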